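import Mathlib

namespace Pool.Agent.Results.MP_716318_co.SixPoints

open Finset

/-- The Hamilton path `v 0, ..., v (n-1)` is `(2,2)`-acceptable for `F`: no two disjoint edges
`{v i, v (i+1)}`, `{v j, v (j+1)}` have their union in `F`. -/
def Acceptable {n : ℕ} (F : Finset (Finset (Fin n))) (v : Equiv.Perm (Fin n)) : Prop :=
  ∀ i i' j j' : Fin n, i'.val = i.val + 1 → j'.val = j.val + 1 →
    Disjoint ({v i, v i'} : Finset (Fin n)) {v j, v j'} → ({v i, v i'} ∪ {v j, v j'}) ∉ F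

def F : Finset (Finset (Fin 6)) := powersetCard 4 (univ.erase 0)

lemma key (v : Equiv.Perm (Fin 6)) (i i' j j' : Fin 6) (h : [i, i', j, j', v.symm 0].Nodup) :
    Disjoint ({v i, v i'} : Finset (Fin 6)) {v j, v j'} ∧ ({v i, v i'} ∪ {v j, v j'}) ∈ F := by
  have e : ∀ a, v a = 0 ↔ a = v.symm 0 := fun a => v.eq_symm_apply.symm
  simp only [List.nodup_cons, List.mem_cons, List.not_mem_nil, or_false, not_or] at h
  obtain ⟨⟨h1, h2, h3, h4⟩, ⟨h5, h6, h7⟩, ⟨h8, h9⟩, h10, -⟩ := h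
  have hd : Disjoint ({v i, v i'} : Finset (Fin 6)) {v j, v j'} := by
    simp [h2, h3, h5, h6, Ne.symm h2, Ne.symm h3, Ne.symm h5, Ne.symm h6]
  refine ⟨hd, mem_powersetCard.2 ⟨?_, ?_⟩⟩
  · intro x hx
    simp only [mem_union, mem_insert, mem_singleton] at hx
    rcases hx with (rfl | rfl) | rfl | rfl <;> simp [e, *]
  · rw [card_union_of_disjoint hd, card_pair (by simpa using h1), card_pair (by simpa using h8)]

theorem result : ∃ (n : ℕ) (F : Finset (Finset (Fin n))), 4 ≤ n ∧ (∀ S ∈ F, S.card = 4) ∧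
    F.card < (n - 2).choose 2 ∧ ∀ v : Equiv.Perm (Fin n), ¬ Acceptable F v := by
  refine ⟨6, F, by norm_num, fun S hS => (mem_powersetCard.1 hS).2, by decide, fun v hv => ?_⟩
  have : ∀ p : Fin 6, ∃ i i' j j' : Fin 6, i'.val = i.val + 1 ∧ j'.val = j.val + 1 ∧
      [i, i', j, j', p].Nodup := by decide
  obtain ⟨i, i', j, j', h1, h2, h3⟩ := this (v.symm 0)
  exact hv i i' j j' h1 h2 (key v i i' j j' h3).1 (key v i i' j j' h3).2

end Pool.Agent.Results.MP_716318_co.SixPoints
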